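import Mathlib

/-!
# A torsion-free Hopfian group which is not co-finitely injective

Let `x` be the endomorphism `x u_n = u_{n-1}`, `x u_0 = 0` of the rational vector space `V` with
basis `u_0, u_1, …` (polynomials, `x` is division by the indeterminate with remainder dropped) and
let `M` be the subgroup of `V` generated by `u_0 / 2, u_1, u_2, …`. The group `G ≤ V × V` is
generated by the elements `(m, 0) / 3 ^ k`, `(0, m) / 5 ^ k`, `(m, m) / 7 ^ k`, `(m, x m) / 11 ^ k`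
with `m ∈ M`. The endomorphisms of `G` are of the form `(f, f)` with `f` commuting with `x`. The
endomorphism `(x, x)` is not injective and has finite cokernel. If `(f, f)` is surjective, then
`f u_0 ≠ 0`, as otherwise the image lies in a smaller group, and then `f` is injective.
-/

namespace Pool.Agent.Results.MP_f7162b_al.HopfianNotCofinitelyInjective

open Polynomial

/-- Every surjective endomorphism is injective (hence an automorphism). -/
def Hopfian (G : Type) [AddCommGroup G] : Prop :=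
  ∀ φ : G →+ G, Function.Surjective φ → Function.Injective φ

/-- Every endomorphism with finite cokernel is injective. -/
def CofinitelyInjective (G : Type) [AddCommGroup G] : Prop :=
  ∀ φ : G →+ G, Finite (G ⧸ φ.range) → φ.ker = ⊥

/-- The group is torsion-free. -/
def TorsionFree (G : Type) [AddCommGroup G] : Prop :=
  ∀ (n : ℤ) (x : G), n ≠ 0 → n • x = 0 → x = 0

noncomputable section

/-- The subgroup `M`. -/
def M : AddSubgroup ℚ[X] where
  carrier := {v | (∃ z : ℤ, 2 * v.coeff 0 = z) ∧ ∀ n, ∃ z : ℤ, v.coeff (n + 1) = z}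
  zero_mem' := ⟨⟨0, by simp⟩, fun n => ⟨0, by simp⟩⟩
  add_mem' := by
    rintro a b ⟨⟨z, hz⟩, ha⟩ ⟨⟨w, hw⟩, hb⟩
    refine ⟨⟨z + w, by rw [coeff_add, mul_add, hz, hw]; push_cast; ring⟩, fun n => ?_⟩
    obtain ⟨s, hs⟩ := ha n
    obtain ⟨t, ht⟩ := hb n
    exact ⟨s + t, by rw [coeff_add, hs, ht]; push_cast; ring⟩
  neg_mem' := by
    rintro a ⟨⟨z, hz⟩, ha⟩
    refine ⟨⟨-z, by rw [coeff_neg, mul_neg, hz]; push_cast; ring⟩, fun n => ?_⟩
    obtain ⟨s, hs⟩ := ha n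
    exact ⟨-s, by rw [coeff_neg, hs]; push_cast; ring⟩

/-- The generators of the group. -/
def gens : Set (ℚ[X] × ℚ[X]) :=
  {v | ∃ (k : ℕ) (m : ℚ[X]), m ∈ M ∧ (v = ((3 : ℚ) ^ k)⁻¹ • (m, 0) ∨ v = ((5 : ℚ) ^ k)⁻¹ • (0, m) ∨
    v = ((7 : ℚ) ^ k)⁻¹ • (m, m) ∨ v = ((11 : ℚ) ^ k)⁻¹ • (m, divX m))}

/-- The group. -/
def G : AddSubgroup (ℚ[X] × ℚ[X]) := AddSubgroup.closure gens

instance : Fact (Nat.Prime 11) := ⟨by norm_num⟩
instance : Fact (Nat.Prime 7) := ⟨by norm_num⟩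
instance : Fact (Nat.Prime 5) := ⟨by norm_num⟩

theorem norm_int (q : ℕ) [Fact q.Prime] {c : ℚ} (h : ∃ z : ℤ, c = z) : padicNorm q c ≤ 1 := by
  obtain ⟨z, rfl⟩ := h
  exact padicNorm.of_int z

theorem norm_nat (q r : ℕ) [hq : Fact q.Prime] (hr : r.Prime) (h : q ≠ r) (k : ℕ) (c : ℚ)
    (hc : padicNorm q c ≤ 1) : padicNorm q (((r : ℚ) ^ k)⁻¹ * c) ≤ 1 := by
  have h1 : padicNorm q ((r : ℚ) ^ k) = 1 := by
    have : ((r : ℚ) ^ k) = ((r ^ k : ℕ) : ℚ) := by push_cast; ring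
    rw [this, padicNorm.nat_eq_one_iff]
    intro hd
    exact h ((Nat.prime_dvd_prime_iff_eq hq.out hr).1 (hq.out.dvd_of_dvd_pow hd))
  have h2 : padicNorm q (((r : ℚ) ^ k)⁻¹) = 1 := by
    have h3 : padicNorm q (((r : ℚ) ^ k) * ((r : ℚ) ^ k)⁻¹) = 1 := by
      rw [mul_inv_cancel₀]
      · exact padicNorm.one
      · have := hr.pos
        positivity
    rwa [padicNorm.mul, h1, one_mul] at h3
  rw [padicNorm.mul, h2, one_mul]
  exact hc

theorem norm_add (q : ℕ) [Fact q.Prime] {a b : ℚ} (ha : padicNorm q a ≤ 1)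
    (hb : padicNorm q b ≤ 1) : padicNorm q (a + b) ≤ 1 :=
  le_trans padicNorm.nonarchimedean (max_le ha hb)

theorem norm_sub (q : ℕ) [Fact q.Prime] {a b : ℚ} (ha : padicNorm q a ≤ 1)
    (hb : padicNorm q b ≤ 1) : padicNorm q (a - b) ≤ 1 :=
  le_trans padicNorm.sub (max_le ha hb)

theorem norm_M (q : ℕ) [hq : Fact q.Prime] (h : q ≠ 2) {m : ℚ[X]} (hm : m ∈ M) (n : ℕ) :
    padicNorm q (m.coeff n) ≤ 1 := by
  rcases n with _ | n
  · have h1 := norm_int q hm.1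
    have h2 : padicNorm q 2 = 1 := by
      have : (2 : ℚ) = ((2 : ℕ) : ℚ) := by norm_num
      rw [this, padicNorm.nat_eq_one_iff]
      intro hd
      exact h ((Nat.prime_dvd_prime_iff_eq hq.out Nat.prime_two).1 hd)
    rwa [padicNorm.mul, h2, one_mul] at h1
  · exact norm_int q (hm.2 n)

theorem ne_zero {r : ℕ} (hr : r.Prime) (k : ℕ) : ((r : ℚ) ^ k) ≠ 0 := by
  have := hr.pos
  positivity

theorem norm1 {g : ℚ[X] × ℚ[X]} (hg : g ∈ G) (n : ℕ) : padicNorm 3 (g.2.coeff n) ≤ 1 := by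
  unfold G at hg
  induction hg using AddSubgroup.closure_induction with
  | mem x hx =>
    obtain ⟨k, m, hm, rfl | rfl | rfl | rfl⟩ := hx
    · simp
    · exact norm_nat 3 5 (by norm_num) (by norm_num) k _ (norm_M 3 (by norm_num) hm n)
    · exact norm_nat 3 7 (by norm_num) (by norm_num) k _ (norm_M 3 (by norm_num) hm n)
    · have := norm_nat 3 11 (by norm_num) (by norm_num) k _ (norm_M 3 (by norm_num) hm (n + 1))
      simpa using this
  | zero => simp
  | add x y _ _ hx hy => exact norm_add 3 hx hy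
  | neg x _ hx =>
    rw [Prod.snd_neg, coeff_neg, padicNorm.neg]
    exact hx

theorem norm2 {g : ℚ[X] × ℚ[X]} (hg : g ∈ G) (n : ℕ) : padicNorm 5 (g.1.coeff n) ≤ 1 := by
  unfold G at hg
  induction hg using AddSubgroup.closure_induction with
  | mem x hx =>
    obtain ⟨k, m, hm, rfl | rfl | rfl | rfl⟩ := hx
    · exact norm_nat 5 3 (by norm_num) (by norm_num) k _ (norm_M 5 (by norm_num) hm n)
    · simp
    · exact norm_nat 5 7 (by norm_num) (by norm_num) k _ (norm_M 5 (by norm_num) hm n)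
    · exact norm_nat 5 11 (by norm_num) (by norm_num) k _ (norm_M 5 (by norm_num) hm n)
  | zero => simp
  | add x y _ _ hx hy => exact norm_add 5 hx hy
  | neg x _ hx =>
    rw [Prod.fst_neg, coeff_neg, padicNorm.neg]
    exact hx

theorem norm3 {g : ℚ[X] × ℚ[X]} (hg : g ∈ G) (n : ℕ) :
    padicNorm 7 (g.1.coeff n - g.2.coeff n) ≤ 1 := by
  unfold G at hg
  induction hg using AddSubgroup.closure_induction with
  | mem x hx =>
    obtain ⟨k, m, hm, rfl | rfl | rfl | rfl⟩ := hx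
    · have := norm_nat 7 3 (by norm_num) (by norm_num) k _ (norm_M 7 (by norm_num) hm n)
      simpa using this
    · have := norm_nat 7 5 (by norm_num) (by norm_num) k _ (norm_M 7 (by norm_num) hm n)
      simpa using this
    · simp
    · have := norm_nat 7 11 (by norm_num) (by norm_num) k _
        (norm_sub 7 (norm_M 7 (by norm_num) hm n) (norm_M 7 (by norm_num) hm (n + 1)))
      simpa [mul_sub] using this
  | zero => simp
  | add x y _ _ hx hy =>
    have := norm_add 7 hx hy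
    rw [Prod.fst_add, Prod.snd_add, coeff_add, coeff_add]
    convert this using 2
    ring
  | neg x _ hx =>
    rw [Prod.fst_neg, Prod.snd_neg, coeff_neg, coeff_neg, ← neg_add', padicNorm.neg,
      ← sub_eq_add_neg]
    exact hx

theorem norm4 {g : ℚ[X] × ℚ[X]} (hg : g ∈ G) (n : ℕ) :
    padicNorm 11 (g.2.coeff n - g.1.coeff (n + 1)) ≤ 1 := by
  unfold G at hg
  induction hg using AddSubgroup.closure_induction with
  | mem x hx =>
    obtain ⟨k, m, hm, rfl | rfl | rfl | rfl⟩ := hx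
    · have := norm_nat 11 3 (by norm_num) (by norm_num) k _ (norm_M 11 (by norm_num) hm (n + 1))
      simpa using this
    · have := norm_nat 11 5 (by norm_num) (by norm_num) k _ (norm_M 11 (by norm_num) hm n)
      simpa using this
    · have := norm_nat 11 7 (by norm_num) (by norm_num) k _
        (norm_sub 11 (norm_M 11 (by norm_num) hm n) (norm_M 11 (by norm_num) hm (n + 1)))
      simpa [mul_sub] using this
    · simp
  | zero => simp
  | add x y _ _ hx hy =>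
    have := norm_add 11 hx hy
    rw [Prod.fst_add, Prod.snd_add, coeff_add, coeff_add]
    convert this using 2
    ring
  | neg x _ hx =>
    rw [Prod.fst_neg, Prod.snd_neg, coeff_neg, coeff_neg, ← neg_add', padicNorm.neg,
      ← sub_eq_add_neg]
    exact hx

theorem norm5 {g : ℚ[X] × ℚ[X]} (hg : g ∈ G) (n : ℕ) : padicNorm 2 (g.1.coeff (n + 1)) ≤ 1 := by
  unfold G at hg
  induction hg using AddSubgroup.closure_induction with
  | mem x hx =>
    obtain ⟨k, m, hm, rfl | rfl | rfl | rfl⟩ := hx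
    · exact norm_nat 2 3 (by norm_num) (by norm_num) k _ (norm_int 2 (hm.2 n))
    · simp
    · exact norm_nat 2 7 (by norm_num) (by norm_num) k _ (norm_int 2 (hm.2 n))
    · exact norm_nat 2 11 (by norm_num) (by norm_num) k _ (norm_int 2 (hm.2 n))
  | zero => simp
  | add x y _ _ hx hy => exact norm_add 2 hx hy
  | neg x _ hx =>
    rw [Prod.fst_neg, coeff_neg, padicNorm.neg]
    exact hx

theorem norm_pow (q : ℕ) [hq : Fact q.Prime] (k : ℕ) :
    padicNorm q ((q : ℚ) ^ k) = ((q : ℚ)⁻¹) ^ k := by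
  induction k with
  | zero => simp
  | succ k ih =>
    rw [pow_succ, padicNorm.mul, padicNorm.padicNorm_p_of_prime, pow_succ, ih]

/-- A number divisible by all powers of `q` vanishes. -/
theorem zero_of_div (q : ℕ) [hq : Fact q.Prime] (c : ℚ)
    (h : ∀ k : ℕ, ∃ d : ℚ, padicNorm q d ≤ 1 ∧ c = (q : ℚ) ^ k * d) : c = 0 := by
  by_contra hc
  have h1 : 0 < padicNorm q c := by
    have := padicNorm.nonneg (p := q) c
    rcases this.lt_or_eq with h | h
    · exact h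
    · exact absurd (padicNorm.zero_of_padicNorm_eq_zero h.symm) hc
  have hq1 : (1 : ℚ) < q := by exact_mod_cast hq.out.one_lt
  obtain ⟨k, hk⟩ := exists_pow_lt_of_lt_one h1 (inv_lt_one_of_one_lt₀ hq1)
  obtain ⟨d, hd, rfl⟩ := h k
  rw [padicNorm.mul, norm_pow] at hk
  have h3 : ((q : ℚ)⁻¹) ^ k * padicNorm q d ≤ ((q : ℚ)⁻¹) ^ k * 1 :=
    mul_le_mul_of_nonneg_left hd (by positivity)
  linarith

/-! ### The endomorphisms -/

theorem mem3 (k : ℕ) {m : ℚ[X]} (hm : m ∈ M) : ((3 : ℚ) ^ k)⁻¹ • (m, (0 : ℚ[X])) ∈ G :=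
  AddSubgroup.subset_closure ⟨k, m, hm, Or.inl rfl⟩

theorem mem5 (k : ℕ) {m : ℚ[X]} (hm : m ∈ M) : ((5 : ℚ) ^ k)⁻¹ • ((0 : ℚ[X]), m) ∈ G :=
  AddSubgroup.subset_closure ⟨k, m, hm, Or.inr (Or.inl rfl)⟩

theorem mem7 (k : ℕ) {m : ℚ[X]} (hm : m ∈ M) : ((7 : ℚ) ^ k)⁻¹ • (m, m) ∈ G :=
  AddSubgroup.subset_closure ⟨k, m, hm, Or.inr (Or.inr (Or.inl rfl))⟩

theorem mem11 (k : ℕ) {m : ℚ[X]} (hm : m ∈ M) : ((11 : ℚ) ^ k)⁻¹ • (m, divX m) ∈ G :=
  AddSubgroup.subset_closure ⟨k, m, hm, Or.inr (Or.inr (Or.inr rfl))⟩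

theorem mem3' {m : ℚ[X]} (hm : m ∈ M) : (m, (0 : ℚ[X])) ∈ G := by
  have := mem3 0 hm
  simpa using this

theorem mem5' {m : ℚ[X]} (hm : m ∈ M) : ((0 : ℚ[X]), m) ∈ G := by
  have := mem5 0 hm
  simpa using this

theorem mem7' {m : ℚ[X]} (hm : m ∈ M) : (m, m) ∈ G := by
  have := mem7 0 hm
  simpa using this

theorem mem11' {m : ℚ[X]} (hm : m ∈ M) : (m, divX m) ∈ G := by
  have := mem11 0 hm
  simpa using this

/-- Additive functionals with bounded values vanish on images of divisible elements. -/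
theorem functional_zero (q : ℕ) [hq : Fact q.Prime] (L : ℚ[X] × ℚ[X] →+ ℚ)
    (hL : ∀ g ∈ G, padicNorm q (L g) ≤ 1) (θ : G →+ G) (v : ℚ[X] × ℚ[X]) (hv : v ∈ G)
    (h : ∀ k : ℕ, ((q : ℚ) ^ k)⁻¹ • v ∈ G) : L (θ ⟨v, hv⟩).1 = 0 := by
  apply zero_of_div q
  intro k
  refine ⟨L (θ ⟨_, h k⟩).1, hL _ (θ _).2, ?_⟩
  have h1 : (⟨v, hv⟩ : G) = (q ^ k) • (⟨_, h k⟩ : G) := by
    apply Subtype.ext
    change v = (q ^ k) • (((q : ℚ) ^ k)⁻¹ • v)
    rw [← Nat.cast_smul_eq_nsmul ℚ, smul_smul, Nat.cast_pow, mul_inv_cancel₀ (ne_zero hq.out k),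
      one_smul]
  rw [h1, map_nsmul, AddSubgroup.coe_nsmul, map_nsmul, nsmul_eq_mul]
  push_cast
  ring

section Theta

variable (θ : G →+ G)

/-- The first component of the endomorphism. -/
def f (m : M) : ℚ[X] := (θ ⟨(m.1, 0), mem3' m.2⟩).1.1

/-- Coefficients of the first component. -/
def L1 (n : ℕ) : ℚ[X] × ℚ[X] →+ ℚ :=
  ((lcoeff ℚ n).toAddMonoidHom).comp (AddMonoidHom.fst _ _)

/-- Coefficients of the second component. -/
def L2 (n : ℕ) : ℚ[X] × ℚ[X] →+ ℚ :=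
  ((lcoeff ℚ n).toAddMonoidHom).comp (AddMonoidHom.snd _ _)

theorem L1_apply (n : ℕ) (v : ℚ[X] × ℚ[X]) : L1 n v = v.1.coeff n := rfl

theorem L2_apply (n : ℕ) (v : ℚ[X] × ℚ[X]) : L2 n v = v.2.coeff n := rfl

theorem theta1 (m : M) : (θ ⟨(m.1, 0), mem3' m.2⟩).1 = (f θ m, 0) := by
  refine Prod.ext rfl ?_
  ext n
  have := functional_zero 3 (L2 n) (fun g hg => norm1 hg n) θ (m.1, 0) (mem3' m.2)
    (fun k => mem3 k m.2)
  rw [L2_apply] at this
  simpa using this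

theorem theta2' (m : M) : (θ ⟨(0, m.1), mem5' m.2⟩).1.1 = 0 := by
  ext n
  have := functional_zero 5 (L1 n) (fun g hg => norm2 hg n) θ (0, m.1) (mem5' m.2)
    (fun k => mem5 k m.2)
  rw [L1_apply] at this
  simpa using this

theorem theta3' (m : M) : (θ ⟨(m.1, m.1), mem7' m.2⟩).1.1 = (θ ⟨(m.1, m.1), mem7' m.2⟩).1.2 := by
  ext n
  have := functional_zero 7 (L1 n - L2 n) (fun g hg => norm3 hg n) θ (m.1, m.1) (mem7' m.2)
    (fun k => mem7 k m.2)
  rw [AddMonoidHom.sub_apply, L1_apply, L2_apply, sub_eq_zero] at this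
  exact this

theorem theta2 (m : M) : (θ ⟨(0, m.1), mem5' m.2⟩).1 = (0, f θ m) := by
  refine Prod.ext (theta2' θ m) ?_
  have h1 : (⟨(m.1, m.1), mem7' m.2⟩ : G) = ⟨(m.1, 0), mem3' m.2⟩ + ⟨(0, m.1), mem5' m.2⟩ := by
    apply Subtype.ext
    simp
  have h2 := theta3' θ m
  rw [h1, map_add, AddSubgroup.coe_add, theta1, Prod.fst_add, Prod.snd_add, theta2', add_zero,
    zero_add] at h2
  exact h2.symm

theorem theta_pair (m n : M) (h : (m.1, n.1) ∈ G) : (θ ⟨(m.1, n.1), h⟩).1 = (f θ m, f θ n) := by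
  have h1 : (⟨(m.1, n.1), h⟩ : G) = ⟨(m.1, 0), mem3' m.2⟩ + ⟨(0, n.1), mem5' n.2⟩ := by
    apply Subtype.ext
    simp
  rw [h1, map_add, AddSubgroup.coe_add, theta1, theta2]
  simp

theorem divX_mem {m : ℚ[X]} (hm : m ∈ M) : divX m ∈ M := by
  refine ⟨?_, fun n => ?_⟩
  · obtain ⟨z, hz⟩ := hm.2 0
    exact ⟨2 * z, by rw [coeff_divX, hz]; push_cast; ring⟩
  · rw [coeff_divX]
    exact hm.2 (n + 1)

theorem f_divX (m : M) : f θ ⟨divX m.1, divX_mem m.2⟩ = divX (f θ m) := by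
  ext n
  have h1 := functional_zero 11 (L2 n - L1 (n + 1)) (fun g hg => norm4 hg n) θ (m.1, divX m.1)
    (mem11' m.2) (fun k => mem11 k m.2)
  have h2 := theta_pair θ m ⟨divX m.1, divX_mem m.2⟩ (mem11' m.2)
  rw [AddMonoidHom.sub_apply, L1_apply, L2_apply, h2, sub_eq_zero] at h1
  rw [coeff_divX]
  exact h1

theorem f_add (m n : M) : f θ (m + n) = f θ m + f θ n := by
  unfold f
  have h1 : (⟨((m + n).1, 0), mem3' (m + n).2⟩ : G) =
      ⟨(m.1, 0), mem3' m.2⟩ + ⟨(n.1, 0), mem3' n.2⟩ := by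
    apply Subtype.ext
    simp
  rw [h1, map_add, AddSubgroup.coe_add, Prod.fst_add]

/-- The first component as a homomorphism. -/
def fh : M →+ ℚ[X] := AddMonoidHom.mk' (f θ) (f_add θ)

theorem fh_apply (m : M) : fh θ m = f θ m := rfl

/-- Constants. -/
theorem C_mem {c : ℚ} (h : ∃ z : ℤ, 2 * c = z) : C c ∈ M := by
  refine ⟨?_, fun n => ⟨0, by simp⟩⟩
  rwa [coeff_C_zero]

theorem norm_f (m : M) (n : ℕ) : padicNorm 2 ((f θ m).coeff (n + 1)) ≤ 1 := norm5 (θ _).2 n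

/-- If `f` vanishes on constants, then all values have integral constant coefficient. -/
theorem norm_zero (h : ∀ c : ℚ, ∀ hc : C c ∈ M, f θ ⟨C c, hc⟩ = 0) (m : M) :
    padicNorm 2 ((f θ m).coeff 0) ≤ 1 := by
  -- `m = C c + divX w`
  have hw : X * (m.1 - C (m.1.coeff 0)) ∈ M := by
    refine ⟨⟨0, by simp⟩, fun n => ?_⟩
    rw [coeff_X_mul, coeff_sub]
    rcases n with _ | n
    · exact ⟨0, by simp⟩
    · rw [coeff_C_succ, sub_zero]
      exact m.2.2 n
  have hc : C (m.1.coeff 0) ∈ M := C_mem m.2.1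
  have h1 : m = ⟨C (m.1.coeff 0), hc⟩ +
      ⟨divX (X * (m.1 - C (m.1.coeff 0))), divX_mem hw⟩ := by
    apply Subtype.ext
    change m.1 = C (m.1.coeff 0) + divX (X * (m.1 - C (m.1.coeff 0)))
    ext n
    rw [coeff_add, coeff_divX, coeff_X_mul, coeff_sub]
    ring
  have h2 : f θ m = divX (f θ ⟨_, hw⟩) := by
    conv_lhs => rw [h1]
    rw [f_add, h _ hc, zero_add]
    exact f_divX θ ⟨_, hw⟩
  rw [h2, coeff_divX]
  exact norm_f θ _ 0

/-- Every element of the group has an odd multiple in `M × M`. -/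
theorem exists_odd {g : ℚ[X] × ℚ[X]} (hg : g ∈ G) : ∃ N : ℕ, Odd N ∧ N • g.1 ∈ M ∧ N • g.2 ∈ M := by
  have key : ∀ (r k : ℕ) (m : ℚ[X]), r.Prime → m ∈ M → (r ^ k) • (((r : ℚ) ^ k)⁻¹ • m) ∈ M := by
    intro r k m hr hm
    rw [← Nat.cast_smul_eq_nsmul ℚ, smul_smul, Nat.cast_pow, mul_inv_cancel₀ (ne_zero hr k),
      one_smul]
    exact hm
  unfold G at hg
  induction hg using AddSubgroup.closure_induction with
  | mem x hx =>
    obtain ⟨k, m, hm, rfl | rfl | rfl | rfl⟩ := hx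
    · exact ⟨3 ^ k, Odd.pow (by decide), key 3 k m (by norm_num) hm, by simp⟩
    · exact ⟨5 ^ k, Odd.pow (by decide), by simp, key 5 k m (by norm_num) hm⟩
    · exact ⟨7 ^ k, Odd.pow (by decide), key 7 k m (by norm_num) hm, key 7 k m (by norm_num) hm⟩
    · exact ⟨11 ^ k, Odd.pow (by decide), key 11 k m (by norm_num) hm,
        key 11 k _ (by norm_num) (divX_mem hm)⟩
  | zero => exact ⟨1, odd_one, by simp, by simp⟩
  | add x y _ _ hx hy =>
    obtain ⟨N, hN, h1, h2⟩ := hx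
    obtain ⟨K, hK, h3, h4⟩ := hy
    refine ⟨N * K, hN.mul hK, ?_, ?_⟩
    · rw [Prod.fst_add, smul_add, mul_comm N K, mul_smul, mul_comm K N, mul_smul]
      exact add_mem (nsmul_mem h1 K) (nsmul_mem h3 N)
    · rw [Prod.snd_add, smul_add, mul_comm N K, mul_smul, mul_comm K N, mul_smul]
      exact add_mem (nsmul_mem h2 K) (nsmul_mem h4 N)
  | neg x _ hx =>
    obtain ⟨N, hN, h1, h2⟩ := hx
    refine ⟨N, hN, ?_, ?_⟩
    · rw [Prod.fst_neg, smul_neg]
      exact neg_mem h1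
    · rw [Prod.snd_neg, smul_neg]
      exact neg_mem h2

theorem half_mem : C (1 / 2 : ℚ) ∈ M := C_mem ⟨1, by norm_num⟩

theorem f_zsmul (z : ℤ) (m : M) : f θ (z • m) = z • f θ m := by
  rw [← fh_apply, ← fh_apply, map_zsmul]

theorem f_zero : f θ 0 = 0 := by
  rw [← fh_apply, map_zero]

theorem C_eq_zsmul {c : ℚ} {z : ℤ} (h : 2 * c = z) (hc : C c ∈ M) :
    (⟨C c, hc⟩ : M) = z • ⟨C (1 / 2), half_mem⟩ := by
  apply Subtype.ext
  rw [AddSubgroup.coe_zsmul]
  change C c = z • C (1 / 2)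
  rw [← Int.cast_smul_eq_zsmul ℚ, ← h, smul_C]
  congr 1
  rw [smul_eq_mul]
  ring

theorem f_half : divX (f θ ⟨C (1 / 2), half_mem⟩) = 0 := by
  rw [← f_divX]
  have : (⟨divX (C (1 / 2 : ℚ)), divX_mem half_mem⟩ : M) = 0 := by
    apply Subtype.ext
    simp
  rw [this, f_zero]

theorem f_inj (h : f θ ⟨C (1 / 2), half_mem⟩ ≠ 0) (d : ℕ) :
    ∀ m : M, m.1.natDegree ≤ d → f θ m = 0 → m = 0 := by
  have base : ∀ m : M, divX m.1 = 0 → f θ m = 0 → m = 0 := by
    intro m hm hf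
    have h1 : m.1 = C (m.1.coeff 0) := by
      conv_lhs => rw [← divX_mul_X_add m.1, hm, zero_mul, zero_add]
    obtain ⟨z, hz⟩ := m.2.1
    have hc : C (m.1.coeff 0) ∈ M := h1 ▸ m.2
    have h2 : m = ⟨C (m.1.coeff 0), hc⟩ := Subtype.ext h1
    rw [h2, C_eq_zsmul hz hc, f_zsmul] at hf
    rcases smul_eq_zero.1 hf with h3 | h3
    · apply Subtype.ext
      rw [h1]
      have : m.1.coeff 0 = 0 := by
        rw [h3] at hz
        simpa using hz
      rw [this]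
      simp
    · exact absurd h3 h
  induction d with
  | zero =>
    intro m hm hf
    apply base m _ hf
    have h1 := eq_C_of_natDegree_le_zero hm
    rw [h1]
    simp
  | succ d ih =>
    intro m hm hf
    apply base m _ hf
    have h1 := ih ⟨divX m.1, divX_mem m.2⟩ (by
      change (divX m.1).natDegree ≤ d
      rw [natDegree_divX_eq_natDegree_tsub_one]
      omega) (by rw [f_divX, hf]; simp)
    exact congrArg Subtype.val h1

theorem theta_smul {g : G} {N : ℕ} (h1 : N • g.1.1 ∈ M) (h2 : N • g.1.2 ∈ M) :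
    N • (θ g).1 = (f θ ⟨_, h1⟩, f θ ⟨_, h2⟩) := by
  have h3 : (N • g.1.1, N • g.1.2) ∈ G := nsmul_mem g.2 N
  have h4 := theta_pair θ ⟨_, h1⟩ ⟨_, h2⟩ h3
  have h5 : (⟨(N • g.1.1, N • g.1.2), h3⟩ : G) = N • g := Subtype.ext rfl
  rw [← h4]
  change _ = (θ ⟨(N • g.1.1, N • g.1.2), h3⟩).1
  rw [h5, map_nsmul, AddSubgroup.coe_nsmul]

theorem hopf (hθ : Function.Surjective θ) : Function.Injective θ := by
  by_cases h : f θ ⟨C (1 / 2), half_mem⟩ = 0
  · exfalso
    have h1 : ∀ c : ℚ, ∀ hc : C c ∈ M, f θ ⟨C c, hc⟩ = 0 := by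
      intro c hc
      obtain ⟨z, hz⟩ := hc.1
      rw [coeff_C_zero] at hz
      rw [C_eq_zsmul hz hc, f_zsmul, h, smul_zero]
    obtain ⟨g, hg⟩ := hθ ⟨(C (1 / 2), 0), mem3' half_mem⟩
    obtain ⟨N, hN, hN1, hN2⟩ := exists_odd g.2
    have h2 := theta_smul θ hN1 hN2
    rw [hg] at h2
    have h3 := norm_zero θ h1 ⟨_, hN1⟩
    have h4 : f θ ⟨_, hN1⟩ = N • C (1 / 2 : ℚ) := (congrArg Prod.fst h2).symm
    rw [h4, coeff_smul, coeff_C_zero, nsmul_eq_mul, padicNorm.mul] at h3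
    have h5 : padicNorm 2 (N : ℚ) = 1 := by
      rw [padicNorm.nat_eq_one_iff]
      intro hd
      exact (Nat.not_even_iff_odd.2 hN) (even_iff_two_dvd.2 hd)
    have h6 : padicNorm 2 (1 / 2 : ℚ) = 2 := by
      have h7 : padicNorm 2 ((1 / 2 : ℚ) * ((2 : ℕ) : ℚ)) = 1 := by norm_num
      rw [padicNorm.mul, padicNorm.padicNorm_p_of_prime] at h7
      push_cast at h7
      linarith
    rw [h5, h6] at h3
    norm_num at h3
  · rw [injective_iff_map_eq_zero]
    intro g hg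
    obtain ⟨N, hN, hN1, hN2⟩ := exists_odd g.2
    have h2 := theta_smul θ hN1 hN2
    rw [hg, AddSubgroup.coe_zero, smul_zero] at h2
    have h3 := f_inj θ h _ ⟨_, hN1⟩ le_rfl (congrArg Prod.fst h2).symm
    have h4 := f_inj θ h _ ⟨_, hN2⟩ le_rfl (congrArg Prod.snd h2).symm
    have h5 : N • g.1.1 = 0 := congrArg Subtype.val h3
    have h6 : N • g.1.2 = 0 := congrArg Subtype.val h4
    have hN0 : N ≠ 0 := by rintro rfl; simp at hN
    apply Subtype.ext
    refine Prod.ext ?_ ?_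
    · rcases smul_eq_zero.1 h5 with h7 | h7
      · exact absurd h7 hN0
      · exact h7
    · rcases smul_eq_zero.1 h6 with h7 | h7
      · exact absurd h7 hN0
      · exact h7

end Theta

/-! ### The endomorphism -/

/-- The endomorphism of the ambient group. -/
def phi0 : ℚ[X] × ℚ[X] →+ ℚ[X] × ℚ[X] := AddMonoidHom.prodMap divX_hom divX_hom

theorem phi0_apply (v : ℚ[X] × ℚ[X]) : phi0 v = (divX v.1, divX v.2) := rfl

theorem divX_smul' (c : ℚ) (m : ℚ[X]) : divX (c • m) = c • divX m := by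
  ext n
  simp [coeff_divX]

theorem phi0_smul (c : ℚ) (v : ℚ[X] × ℚ[X]) : phi0 (c • v) = c • phi0 v := by
  rw [phi0_apply, phi0_apply, Prod.smul_fst, Prod.smul_snd, divX_smul', divX_smul', Prod.smul_mk]

theorem phi0_mem {g : ℚ[X] × ℚ[X]} (hg : g ∈ G) : phi0 g ∈ G := by
  have h : G ≤ G.comap phi0 := by
    conv_lhs => unfold G
    rw [AddSubgroup.closure_le]
    rintro _ ⟨k, m, hm, rfl | rfl | rfl | rfl⟩
    · rw [SetLike.mem_coe, AddSubgroup.mem_comap, phi0_smul, phi0_apply]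
      have := mem3 k (divX_mem hm)
      simpa using this
    · rw [SetLike.mem_coe, AddSubgroup.mem_comap, phi0_smul, phi0_apply]
      have := mem5 k (divX_mem hm)
      simpa using this
    · rw [SetLike.mem_coe, AddSubgroup.mem_comap, phi0_smul, phi0_apply]
      exact mem7 k (divX_mem hm)
    · rw [SetLike.mem_coe, AddSubgroup.mem_comap, phi0_smul, phi0_apply]
      exact mem11 k (divX_mem hm)
  exact h hg

/-- The endomorphism. -/
def phi : G →+ G := (phi0.comp G.subtype).codRestrict G (fun g => phi0_mem g.2)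

theorem phi_val (g : G) : (phi g).1 = phi0 g.1 := rfl

theorem exists_lift (r k : ℕ) (hr : Odd r) {m : ℚ[X]} (hm : m ∈ M) : ∃ z : ℤ, ∃ h ∈ M,
    2 * m.coeff 0 = z ∧ m = (r : ℚ) ^ k • C ((z : ℚ) / 2) + divX h := by
  obtain ⟨z, hz⟩ := hm.1
  refine ⟨z, X * (m - (r : ℚ) ^ k • C ((z : ℚ) / 2)), ⟨⟨0, by simp⟩, fun n => ?_⟩, hz, ?_⟩
  · rw [coeff_X_mul, coeff_sub, coeff_smul]
    rcases n with _ | n
    · have h1 : Odd (r ^ k) := hr.pow
      obtain ⟨t, ht⟩ := h1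
      refine ⟨-(z * t), ?_⟩
      have h2 : ((r : ℚ) ^ k) = 2 * t + 1 := by exact_mod_cast ht
      rw [coeff_C_zero, h2, smul_eq_mul]
      have h3 : m.coeff 0 = z / 2 := by rw [← hz]; ring
      rw [h3]
      push_cast
      ring
    · obtain ⟨t, ht⟩ := hm.2 n
      exact ⟨t, by rw [coeff_C_succ, smul_zero, sub_zero, ht]⟩
  · ext n
    rw [coeff_add, coeff_divX, coeff_X_mul, coeff_sub]
    ring

theorem inv_smul_pow {r : ℕ} (hr : r.Prime) (k : ℕ) (v : ℚ[X]) :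
    ((r : ℚ) ^ k)⁻¹ • ((r : ℚ) ^ k • v) = v := by
  rw [smul_smul, inv_mul_cancel₀ (ne_zero hr k), one_smul]

theorem cosets {g : ℚ[X] × ℚ[X]} (hg : g ∈ G) : ∃ i j : ℤ, ∃ h ∈ G,
    g = (C ((i : ℚ) / 2), C ((j : ℚ) / 2)) + phi0 h := by
  unfold G at hg
  induction hg using AddSubgroup.closure_induction with
  | mem x hx =>
    obtain ⟨k, m, hm, rfl | rfl | rfl | rfl⟩ := hx
    · obtain ⟨z, h, hh, _, h2⟩ := exists_lift 3 k (by decide) hm
      refine ⟨z, 0, _, mem3 k hh, ?_⟩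
      rw [phi0_smul, phi0_apply]
      have e : ((3 : ℚ) ^ k)⁻¹ • (((3 : ℕ) : ℚ) ^ k • C ((z : ℚ) / 2)) = C ((z : ℚ) / 2) :=
        inv_smul_pow (r := 3) (by norm_num) k (C ((z : ℚ) / 2))
      conv_lhs => rw [h2]
      rw [Prod.smul_mk, smul_add, e]
      simp
    · obtain ⟨z, h, hh, _, h2⟩ := exists_lift 5 k (by decide) hm
      refine ⟨0, z, _, mem5 k hh, ?_⟩
      rw [phi0_smul, phi0_apply]
      have e : ((5 : ℚ) ^ k)⁻¹ • (((5 : ℕ) : ℚ) ^ k • C ((z : ℚ) / 2)) = C ((z : ℚ) / 2) :=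
        inv_smul_pow (r := 5) (by norm_num) k (C ((z : ℚ) / 2))
      conv_lhs => rw [h2]
      rw [Prod.smul_mk, smul_add, e]
      simp
    · obtain ⟨z, h, hh, _, h2⟩ := exists_lift 7 k (by decide) hm
      refine ⟨z, z, _, mem7 k hh, ?_⟩
      rw [phi0_smul, phi0_apply]
      have e : ((7 : ℚ) ^ k)⁻¹ • (((7 : ℕ) : ℚ) ^ k • C ((z : ℚ) / 2)) = C ((z : ℚ) / 2) :=
        inv_smul_pow (r := 7) (by norm_num) k (C ((z : ℚ) / 2))
      conv_lhs => rw [h2]
      rw [Prod.smul_mk, smul_add, e]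
      simp
    · obtain ⟨z, h, hh, _, h2⟩ := exists_lift 11 k (by decide) hm
      refine ⟨z, 0, _, mem11 k hh, ?_⟩
      rw [phi0_smul, phi0_apply]
      have e := inv_smul_pow (r := 11) (by norm_num) k (C ((z : ℚ) / 2))
      have e2 : divX m = divX (divX h) := by
        rw [h2, divX_add, divX_smul']
        simp
      refine Prod.ext ?_ ?_
      · change ((11 : ℚ) ^ k)⁻¹ • m = C ((z : ℚ) / 2) + ((11 : ℚ) ^ k)⁻¹ • divX h
        conv_lhs => rw [h2]
        rw [smul_add]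
        have e' : ((11 : ℚ) ^ k)⁻¹ • (((11 : ℕ) : ℚ) ^ k • C ((z : ℚ) / 2)) = C ((z : ℚ) / 2) := e
        rw [e']
      · change ((11 : ℚ) ^ k)⁻¹ • divX m = C (((0 : ℤ) : ℚ) / 2) + ((11 : ℚ) ^ k)⁻¹ • divX (divX h)
        rw [e2]
        simp
  | zero => exact ⟨0, 0, 0, zero_mem _, by simp; rfl⟩
  | add x y _ _ hx hy =>
    obtain ⟨i, j, h, hh, rfl⟩ := hx
    obtain ⟨i', j', h', hh', rfl⟩ := hy
    refine ⟨i + i', j + j', h + h', add_mem hh hh', ?_⟩
    rw [map_add, add_add_add_comm]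
    congr 1
    push_cast
    rw [add_div, add_div, C_add, C_add, Prod.mk_add_mk]
  | neg x _ hx =>
    obtain ⟨i, j, h, hh, rfl⟩ := hx
    refine ⟨-i, -j, -h, neg_mem hh, ?_⟩
    rw [map_neg, neg_add]
    congr 1
    push_cast
    rw [neg_div, neg_div, C_neg, C_neg, Prod.neg_mk]

theorem pair_mem (i j : ℤ) : (C ((i : ℚ) / 2), C ((j : ℚ) / 2)) ∈ G := by
  have h1 := mem3' (C_mem (c := (i : ℚ) / 2) ⟨i, by ring⟩)
  have h2 := mem5' (C_mem (c := (j : ℚ) / 2) ⟨j, by ring⟩)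
  have := add_mem h1 h2
  simpa using this

theorem finite_coker : Finite (G ⧸ phi.range) := by
  apply Finite.of_surjective (fun p : Fin 2 × Fin 2 =>
    (QuotientAddGroup.mk' phi.range) ⟨_, pair_mem ((p.1 : ℕ) : ℤ) ((p.2 : ℕ) : ℤ)⟩)
  intro q
  obtain ⟨g, rfl⟩ := QuotientAddGroup.mk'_surjective _ q
  obtain ⟨i, j, h, hh, hg⟩ := cosets g.2
  have hi : ∃ a : Fin 2, ∃ t : ℤ, i = ((a : ℕ) : ℤ) + 2 * t := by
    rcases Int.even_or_odd' i with ⟨t, ht | ht⟩
    · exact ⟨0, t, by simpa using ht⟩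
    · exact ⟨1, t, by rw [ht]; simp; ring⟩
  have hj : ∃ a : Fin 2, ∃ t : ℤ, j = ((a : ℕ) : ℤ) + 2 * t := by
    rcases Int.even_or_odd' j with ⟨t, ht | ht⟩
    · exact ⟨0, t, by simpa using ht⟩
    · exact ⟨1, t, by rw [ht]; simp; ring⟩
  obtain ⟨a, t, ha⟩ := hi
  obtain ⟨b, s, hb⟩ := hj
  refine ⟨(a, b), ?_⟩
  change (QuotientAddGroup.mk' phi.range) _ = (QuotientAddGroup.mk' phi.range) _
  rw [QuotientAddGroup.mk'_apply, QuotientAddGroup.mk'_apply, QuotientAddGroup.eq]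
  have hX : ∀ t : ℤ, C (t : ℚ) * X ∈ M := by
    intro t
    refine ⟨⟨0, by simp⟩, fun n => ?_⟩
    rw [coeff_C_mul_X]
    split_ifs
    · exact ⟨t, rfl⟩
    · exact ⟨0, by simp⟩
  have hm : h + (C (t : ℚ) * X, C (s : ℚ) * X) ∈ G := by
    refine add_mem hh ?_
    have := add_mem (mem3' (hX t)) (mem5' (hX s))
    simpa using this
  refine ⟨⟨_, hm⟩, ?_⟩
  apply Subtype.ext
  rw [phi_val]
  change phi0 (h + (C (t : ℚ) * X, C (s : ℚ) * X)) = -(C _, C _) + g.1
  rw [hg, map_add, ha, hb, phi0_apply (C (t : ℚ) * X, C (s : ℚ) * X)]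
  have e : ∀ t : ℤ, divX (C (t : ℚ) * X) = C (t : ℚ) := by
    intro t
    ext n
    rw [coeff_divX, coeff_mul_X]
  dsimp only
  rw [e, e]
  have e2 : ∀ (a : Fin 2) (t : ℤ), C ((((((a : ℕ) : ℤ) + 2 * t : ℤ)) : ℚ) / 2) =
      C ((((a : ℕ) : ℤ) : ℚ) / 2) + C (t : ℚ) := by
    intro a t
    rw [← C_add]
    congr 1
    push_cast
    ring
  rw [e2, e2, ← Prod.mk_add_mk]
  abel

/-- There is a torsion-free Hopfian abelian group with an endomorphism which has a finite cokernel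
and a nontrivial kernel. -/
theorem result : ∃ (G : Type) (_ : AddCommGroup G), TorsionFree G ∧ Hopfian G ∧
    ¬ CofinitelyInjective G ∧ ∃ φ : G →+ G, Finite (G ⧸ φ.range) ∧ φ.ker ≠ ⊥ := by
  have hker : phi.ker ≠ ⊥ := by
    intro h
    have h1 : (⟨(C (1 / 2), 0), mem3' half_mem⟩ : G) ∈ phi.ker := by
      rw [AddMonoidHom.mem_ker]
      apply Subtype.ext
      rw [phi_val, phi0_apply]
      simp
    rw [h, AddSubgroup.mem_bot] at h1
    have h2 := congrArg (fun g : G => g.1.1.coeff 0) h1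
    simp at h2
  refine ⟨G, inferInstance, ?_, fun θ => hopf θ, fun h => hker (h phi finite_coker), phi,
    finite_coker, hker⟩
  intro n x hn hx
  have h1 : n • x.1 = 0 := by
    rw [← AddSubgroup.coe_zsmul, hx, AddSubgroup.coe_zero]
  apply Subtype.ext
  rcases smul_eq_zero.1 h1 with h2 | h2
  · exact absurd h2 hn
  · exact h2

end

end Pool.Agent.Results.MP_f7162b_al.HopfianNotCofinitelyInjective
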